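import Pool.Agent.H488Z.Ros.Defs

set_option autoImplicit false
set_option linter.unusedSectionVars false

namespace Pool.Agent.H488Z.Ros

open MeasureTheory Topology Filter

/-- Continuous self-maps under composition. -/
def End (X : Type) [TopologicalSpace X] : Type := C(X, X)

section End
variable {X : Type} [MetricSpace X] [CompactSpace X]

/-- The underlying continuous map. -/
def End.map (f : End X) : C(X, X) := f

noncomputable instance : MetricSpace (End X) := inferInstanceAs (MetricSpace C(X, X))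

instance : Monoid (End X) where
  mul f g := (f.map.comp g.map : C(X, X))
  one := (ContinuousMap.id X : C(X, X))
  mul_assoc _ _ _ := rfl
  one_mul _ := rfl
  mul_one _ := rfl

instance : ContinuousMul (End X) where
  continuous_mul := by
    have h := (ContinuousMap.continuous_comp' (X := X) (Y := X) (Z := X)).comp continuous_swap
    exact h

instance : MulAction (End X) X where
  smul f x := f.map x
  one_smul _ := rfl
  mul_smul _ _ _ := rfl

instance : ContinuousSMul (End X) X where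
  continuous_smul := (continuous_eval : Continuous fun p : C(X, X) × X => p.1 p.2)

instance : PolishSpace (End X) := by
  have : CompleteSpace (End X) := inferInstanceAs (CompleteSpace C(X, X))
  have : SecondCountableTopology (End X) := inferInstanceAs (SecondCountableTopology C(X, X))
  infer_instance

instance : PolishSpace (End X)ˣ := by
  have : PolishSpace (End X)ᵐᵒᵖ :=
    (MulOpposite.opHomeomorph (M := End X)).symm.isClosedEmbedding.polishSpace
  exact (Units.isClosedEmbedding_embedProduct (α := End X)).polishSpace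

lemma unit_ext {g h : (End X)ˣ} (H : ∀ x : X, g • x = h • x) : g = h := by
  apply Units.ext
  exact ContinuousMap.ext H

/-- The unit given by a continuous involution. -/
def ofInvol (f : X → X) (hc : Continuous f) (hi : ∀ x, f (f x) = x) : (End X)ˣ where
  val := (⟨f, hc⟩ : C(X, X))
  inv := (⟨f, hc⟩ : C(X, X))
  val_inv := ContinuousMap.ext hi
  inv_val := ContinuousMap.ext hi

/-- The unit given by a homeomorphism. -/
def ofHomeo (f : X ≃ₜ X) : (End X)ˣ where
  val := (⟨f, f.continuous⟩ : C(X, X))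
  inv := (⟨f.symm, f.symm.continuous⟩ : C(X, X))
  val_inv := ContinuousMap.ext f.apply_symm_apply
  inv_val := ContinuousMap.ext f.symm_apply_apply

lemma ofHomeo_smul (f : X ≃ₜ X) (x : X) : ofHomeo f • x = f x := rfl

lemma exists_swap (f : (End X)ˣ) {W : Set X} (hW : IsClopen W) (hd : ∀ y ∈ W, f • y ∉ W) :
    ∃ h : (End X)ˣ, (∀ y ∈ W, h • y = f • y) ∧ ∀ y, y ∉ W → f⁻¹ • y ∉ W → h • y = y := by
  classical
  let s : X → X := fun y => if y ∈ W then f • y else if f⁻¹ • y ∈ W then f⁻¹ • y else y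
  have hW2 : IsClopen {y : X | f⁻¹ • y ∈ W} := hW.preimage (continuous_const_smul f⁻¹)
  have hc : Continuous s := by
    apply Continuous.if
    · intro a ha
      rw [show {x | x ∈ W} = W from rfl, hW.frontier_eq] at ha
      exact ha.elim
    · exact continuous_const_smul f
    · apply Continuous.if
      · intro a ha
        rw [hW2.frontier_eq] at ha
        exact ha.elim
      · exact continuous_const_smul f⁻¹
      · exact continuous_id
  have hi : ∀ y, s (s y) = y := by
    intro y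
    by_cases h1 : y ∈ W
    · have h2 := hd y h1
      simp [s, h1, h2]
    · by_cases h2 : f⁻¹ • y ∈ W
      · simp [s, h1, h2]
      · simp [s, h1, h2]
  refine ⟨ofInvol s hc hi, fun y hy => ?_, fun y h1 h2 => ?_⟩
  · show s y = _
    simp [s, hy]
  · show s y = _
    simp [s, h1, h2]

/-- The uniform displacement. -/
noncomputable def disp (g : (End X)ˣ) : ℝ := dist (g : End X) 1

lemma dist_le_disp (g : (End X)ˣ) (x : X) : dist (g • x) x ≤ disp g :=
  ContinuousMap.dist_apply_le_dist (f := (g : End X).map) (g := ContinuousMap.id X) x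

lemma disp_nonneg (g : (End X)ˣ) : 0 ≤ disp g := dist_nonneg

lemma disp_le {g : (End X)ˣ} {C : ℝ} (hC : 0 ≤ C) (h : ∀ x : X, dist (g • x) x ≤ C) :
    disp g ≤ C :=
  (ContinuousMap.dist_le (f := (g : End X).map) (g := ContinuousMap.id X) hC).2 h

lemma disp_inv_le (g : (End X)ˣ) : disp g⁻¹ ≤ disp g := by
  apply disp_le (disp_nonneg g)
  intro x
  have := dist_le_disp g (g⁻¹ • x)
  rwa [smul_inv_smul, dist_comm] at this

lemma disp_inv (g : (End X)ˣ) : disp g⁻¹ = disp g :=
  le_antisymm (disp_inv_le g) (by simpa using disp_inv_le g⁻¹)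

lemma disp_mul (g h : (End X)ˣ) : disp (g * h) ≤ disp g + disp h := by
  apply disp_le (add_nonneg (disp_nonneg g) (disp_nonneg h))
  intro x
  rw [mul_smul]
  exact (dist_triangle _ (h • x) _).trans (add_le_add (dist_le_disp g _) (dist_le_disp h x))

lemma disp_eq_zero {g : (End X)ˣ} : disp g = 0 ↔ g = 1 := by
  unfold disp
  rw [dist_eq_zero, Units.val_eq_one]

lemma continuous_disp : Continuous (disp : (End X)ˣ → ℝ) :=
  Units.continuous_val.dist continuous_const

lemma disp_bdd : ∃ D : ℝ, ∀ g : (End X)ˣ, disp g ≤ D :=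
  ⟨Metric.diam (Set.univ : Set X), fun _ => disp_le Metric.diam_nonneg fun _ =>
    Metric.dist_le_diam_of_mem isCompact_univ.isBounded trivial trivial⟩

lemma tendsto_of_disp {T : Type} {l : Filter T} {u : T → (End X)ˣ}
    (h : Tendsto (fun t => disp (u t)) l (𝓝 0)) : Tendsto u l (𝓝 1) := by
  rw [Units.isEmbedding_embedProduct.tendsto_nhds_iff]
  apply Tendsto.prodMk_nhds
  · exact tendsto_iff_dist_tendsto_zero.2 h
  · apply (MulOpposite.continuous_op.tendsto _).comp
    apply tendsto_iff_dist_tendsto_zero.2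
    have h2 : Tendsto (fun t => disp (u t)⁻¹) l (𝓝 0) := by simpa only [disp_inv] using h
    exact h2

/-- Three disjoint clopen sets whose complements can be compressed into any nonempty open set. -/
structure Compress (A : Fin 3 → Set X) : Prop where
  clopen : ∀ i, IsClopen (A i)
  disj : ∀ i j, i ≠ j → ∀ x ∈ A i, x ∉ A j
  ne : ∀ i, (A i).Nonempty
  comp : ∀ i (W : Set X), IsOpen W → W.Nonempty → ∃ f : (End X)ˣ, ∀ x, x ∉ A i → f • x ∈ W

lemma Compress.bounded [TotallyDisconnectedSpace X] {A : Fin 3 → Set X} (hA : Compress A)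
    (L : (End X)ˣ → ℝ) (Linv : ∀ g, L g⁻¹ = L g) (Lmul : ∀ g h, L (g * h) ≤ L g + L h)
    {ε : ℝ} (hε : 0 < ε) (hL : ∀ g, disp g ≤ ε → L g ≤ 1) : ∃ M : ℝ, ∀ g, L g ≤ M := by
  obtain ⟨p, -⟩ := hA.ne 0
  choose f hf using fun i => hA.comp i (Metric.ball p (ε / 2)) Metric.isOpen_ball
    ⟨p, Metric.mem_ball_self (half_pos hε)⟩
  obtain ⟨c, hc⟩ : ∃ c : ℝ, ∀ i, L (f i) ≤ c := ⟨_, fun i => Finite.le_ciSup (fun i => L (f i)) i⟩
  have h1 : ∀ i (g : (End X)ˣ), (∀ y ∈ A i, g • y = y) → L g ≤ 2 * c + 1 := by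
    intro i g hg
    have e1 : ∀ y, y ∉ Metric.ball p (ε / 2) → (f i * g * (f i)⁻¹) • y = y := by
      intro y hy
      have : (f i)⁻¹ • y ∈ A i := by
        by_contra h
        have := hf i _ h
        rw [smul_inv_smul] at this
        exact hy this
      rw [mul_smul, mul_smul, hg _ this, smul_inv_smul]
    have e2 : disp (f i * g * (f i)⁻¹) ≤ ε := by
      apply disp_le hε.le
      intro y
      by_cases hy : y ∈ Metric.ball p (ε / 2)
      · by_cases hy2 : (f i * g * (f i)⁻¹) • y ∈ Metric.ball p (ε / 2)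
        · have := dist_triangle_right ((f i * g * (f i)⁻¹) • y) y p
          rw [Metric.mem_ball] at hy hy2
          linarith
        · have : (f i * g * (f i)⁻¹) • y = y := MulAction.injective _ (e1 _ hy2)
          rw [this, dist_self]
          exact hε.le
      · rw [e1 y hy, dist_self]
        exact hε.le
    have e3 := hL _ e2
    have e4 : g = (f i)⁻¹ * (f i * g * (f i)⁻¹) * f i := by group
    have e5 := Lmul ((f i)⁻¹ * (f i * g * (f i)⁻¹)) (f i)
    have e6 := Lmul ((f i)⁻¹) (f i * g * (f i)⁻¹)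
    rw [← e4] at e5
    rw [Linv] at e6
    linarith [hc i]
  have h0 : L 1 ≤ 2 * c + 1 := h1 0 1 (fun y _ => one_smul _ y)
  have h00 : 0 ≤ L 1 := by
    have := Lmul 1 1
    rw [mul_one] at this
    linarith
  refine ⟨4 * (2 * c + 1), fun g => ?_⟩
  by_cases hg : ∀ x : X, g • x = x
  · have := h1 0 g (fun y _ => hg y)
    linarith
  push Not at hg
  obtain ⟨x, hx⟩ := hg
  have avoid : ∀ z : X, ∃ i₀ : Fin 3, ∀ i, i ≠ i₀ → z ∉ A i := by
    intro z
    by_cases h : ∃ i, z ∈ A i
    · obtain ⟨i, hi⟩ := h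
      exact ⟨i, fun j hj => hA.disj i j hj.symm z hi⟩
    · push Not at h
      exact ⟨0, fun i _ => h i⟩
  obtain ⟨a, ha⟩ := avoid x
  obtain ⟨b, hb⟩ := avoid (g • x)
  have third : ∀ a b : Fin 3, ∃ k : Fin 3, k ≠ a ∧ k ≠ b := by decide
  obtain ⟨k, hka, hkb⟩ := third a b
  obtain ⟨j, hja, hjk⟩ := third a k
  obtain ⟨O₁, O₂, hO₁, hO₂, hx₁, hx₂, hO⟩ := t2_separation hx.symm
  have hcg : Continuous fun y : X => g • y := continuous_const_smul g
  have hopen : IsOpen ((A j)ᶜ ∩ (A k)ᶜ ∩ O₁ ∩ (fun y => g • y) ⁻¹' ((A k)ᶜ ∩ O₂)) :=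
    (((hA.clopen j).compl.isOpen.inter (hA.clopen k).compl.isOpen).inter hO₁).inter
      (((hA.clopen k).compl.isOpen.inter hO₂).preimage hcg)
  obtain ⟨W, hW, hxW, hWs⟩ := compact_exists_isClopen_in_isOpen hopen (x := x)
    ⟨⟨⟨ha j hja, ha k hka⟩, hx₁⟩, hb k hkb, hx₂⟩
  obtain ⟨h, hh1, hh2⟩ := exists_swap g hW (fun y hy hy2 =>
    Set.disjoint_left.1 hO (hWs hy2).1.2 (hWs hy).2.2)
  have Lh : L h ≤ 2 * c + 1 := by
    apply h1 k
    intro y hy
    apply hh2
    · exact fun hyW => (hWs hyW).1.1.2 hy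
    · intro hyW
      have := (hWs hyW).2.1
      simp only [smul_inv_smul] at this
      exact this hy
  obtain ⟨q, hq⟩ := hA.comp k W hW.isOpen ⟨x, hxW⟩
  have hqj : ∀ y ∈ A j, q • y ∈ W := fun y hy => hq y (hA.disj j k hjk y hy)
  obtain ⟨v, hv1, hv2⟩ := exists_swap q (hA.clopen j) (fun y hy => (hWs (hqj y hy)).1.1.1)
  have Lv : L v ≤ 2 * c + 1 := by
    apply h1 k
    intro y hy
    apply hv2
    · exact hA.disj k j hjk.symm y hy
    · intro hyW
      have := hqj _ hyW
      rw [smul_inv_smul] at this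
      exact (hWs this).1.1.2 hy
  have Lk : L (v⁻¹ * (h⁻¹ * g) * v) ≤ 2 * c + 1 := by
    apply h1 j
    intro y hy
    have e1 : v • y ∈ W := by rw [hv1 y hy]; exact hqj y hy
    rw [mul_smul, mul_smul, mul_smul, ← hh1 _ e1, inv_smul_smul, inv_smul_smul]
  have e4 : g = h * (v * (v⁻¹ * (h⁻¹ * g) * v) * v⁻¹) := by group
  have e5 := Lmul h (v * (v⁻¹ * (h⁻¹ * g) * v) * v⁻¹)
  have e6 := Lmul (v * (v⁻¹ * (h⁻¹ * g) * v)) v⁻¹
  have e7 := Lmul v (v⁻¹ * (h⁻¹ * g) * v)
  rw [← e4] at e5
  rw [Linv] at e6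
  linarith

lemma Compress.no_measure {A : Fin 3 → Set X} (hA : Compress A) [MeasurableSpace X] [BorelSpace X]
    (μ : Measure X) [IsProbabilityMeasure μ] (hμ : ∀ g : (End X)ˣ, μ.map (fun x => g • x) = μ) :
    False := by
  have hm : ∀ i, MeasurableSet (A i) := fun i => (hA.clopen i).isOpen.measurableSet
  have h1 : ∀ i, 1 / 2 ≤ μ.real (A i) := by
    intro i
    obtain ⟨f, hf⟩ := hA.comp i (A i) (hA.clopen i).isOpen (hA.ne i)
    have e1 : μ.real (A i) = μ.real ((fun x => f • x) ⁻¹' A i) := by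
      conv_lhs => rw [← hμ f]
      rw [map_measureReal_apply (continuous_const_smul f).measurable (hm i)]
    have e2 : μ.real (A i)ᶜ ≤ μ.real ((fun x => f • x) ⁻¹' A i) :=
      measureReal_mono (fun x hx => hf x hx)
    have e3 := probReal_compl_eq_one_sub (μ := μ) (hm i)
    linarith
  have h2 : μ.real (A 0 ∪ A 1) = μ.real (A 0) + μ.real (A 1) :=
    measureReal_union (Set.disjoint_left.2 (hA.disj 0 1 (by decide))) (hm 1)
  have h3 : μ.real (A 0 ∪ A 1 ∪ A 2) = μ.real (A 0 ∪ A 1) + μ.real (A 2) := by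
    apply measureReal_union _ (hm 2)
    rw [Set.disjoint_union_left]
    exact ⟨Set.disjoint_left.2 (hA.disj 0 2 (by decide)),
      Set.disjoint_left.2 (hA.disj 1 2 (by decide))⟩
  have h4 : μ.real (A 0 ∪ A 1 ∪ A 2) ≤ 1 := measureReal_le_one
  linarith [h1 0, h1 1, h1 2]

end End

end Pool.Agent.H488Z.Ros
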