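import Mathlib

set_option autoImplicit false

namespace Pool.Agent.H488Z.Ros

/-- The map `0w ↦ 00w`, `10w ↦ 01w`, `11w ↦ 1w`. -/
def phi (x : ℕ → Bool) (n : ℕ) : Bool :=
  if x 0 = false then (if n = 0 then false else x (n - 1))
  else if x 1 = false then (if n = 0 then false else if n = 1 then true else x n) else x (n + 1)

/-- Its inverse. -/
def psi (y : ℕ → Bool) (n : ℕ) : Bool :=
  if y 0 = true then (if n = 0 then true else y (n - 1))
  else if y 1 = false then y (n + 1) else (if n = 0 then true else if n = 1 then false else y n)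

lemma psi_phi (x : ℕ → Bool) : psi (phi x) = x := by
  funext n
  rcases n with _ | _ | n <;> cases h0 : x 0 <;> cases h1 : x 1 <;> simp [psi, phi, h0, h1]

lemma phi_psi (x : ℕ → Bool) : phi (psi x) = x := by
  funext n
  rcases n with _ | _ | n <;> cases h0 : x 0 <;> cases h1 : x 1 <;> simp [psi, phi, h0, h1]

lemma continuous_phi : Continuous phi := by
  apply continuous_pi
  intro n
  let F : Bool × Bool × Bool × Bool × Bool → Bool := fun p =>
    if p.1 = false then (if n = 0 then false else p.2.2.1)
    else if p.2.1 = false then (if n = 0 then false else if n = 1 then true else p.2.2.2.1)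
    else p.2.2.2.2
  have h : Continuous fun x : ℕ → Bool => (x 0, x 1, x (n - 1), x n, x (n + 1)) := by fun_prop
  exact (continuous_of_discreteTopology (f := F)).comp h

lemma continuous_psi : Continuous psi := by
  apply continuous_pi
  intro n
  let F : Bool × Bool × Bool × Bool × Bool → Bool := fun p =>
    if p.1 = true then (if n = 0 then true else p.2.2.1)
    else if p.2.1 = false then p.2.2.2.2
    else (if n = 0 then true else if n = 1 then false else p.2.2.2.1)
  have h : Continuous fun x : ℕ → Bool => (x 0, x 1, x (n - 1), x n, x (n + 1)) := by fun_prop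
  exact (continuous_of_discreteTopology (f := F)).comp h

/-- The north-south homeomorphism. -/
def phiH : (ℕ → Bool) ≃ₜ (ℕ → Bool) where
  toFun := phi
  invFun := psi
  left_inv := psi_phi
  right_inv := phi_psi
  continuous_toFun := continuous_phi
  continuous_invFun := continuous_psi

lemma continuous_tr (p : ℕ → Bool) : Continuous fun (x : ℕ → Bool) (n : ℕ) => xor (x n) (p n) := by
  apply continuous_pi
  intro n
  exact (continuous_of_discreteTopology (f := fun b : Bool => xor b (p n))).comp
    (continuous_apply n)

/-- Translation in the Cantor group. -/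
def trH (p : ℕ → Bool) : (ℕ → Bool) ≃ₜ (ℕ → Bool) where
  toFun x n := xor (x n) (p n)
  invFun x n := xor (x n) (p n)
  left_inv x := by funext n; simp
  right_inv x := by funext n; simp
  continuous_toFun := continuous_tr p
  continuous_invFun := continuous_tr p

lemma exists_shrink (m : ℕ) : ∃ f : (ℕ → Bool) ≃ₜ (ℕ → Bool),
    ∀ x : ℕ → Bool, ¬ (x 0 = true ∧ x 1 = true) → ∀ i ≤ m, f x i = false := by
  induction m with
  | zero =>
    refine ⟨phiH, fun x hx i hi => ?_⟩
    obtain rfl : i = 0 := by omega
    show phi x 0 = false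
    cases h0 : x 0 <;> cases h1 : x 1 <;> simp_all [phi]
  | succ m ih =>
    obtain ⟨f, hf⟩ := ih
    refine ⟨f.trans phiH, fun x hx i hi => ?_⟩
    show phi (f x) i = false
    have h0 := hf x hx 0 (Nat.zero_le _)
    rcases i with _ | i
    · simp [phi, h0]
    · simp [phi, h0, hf x hx i (by omega)]

/-- Cylinders of depth two. -/
def cyl (a b : Bool) : Set (ℕ → Bool) := {x | x 0 = a ∧ x 1 = b}

lemma isClopen_cyl (a b : Bool) : IsClopen (cyl a b) :=
  ((isClopen_discrete {a}).preimage (continuous_apply 0)).inter
    ((isClopen_discrete {b}).preimage (continuous_apply 1))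

lemma cyl_compress (a b : Bool) (W : Set (ℕ → Bool)) (hW : IsOpen W) (hne : W.Nonempty) :
    ∃ f : (ℕ → Bool) ≃ₜ (ℕ → Bool), ∀ x, x ∉ cyl a b → f x ∈ W := by
  obtain ⟨p, hp⟩ := hne
  obtain ⟨I, u, hu, hI⟩ := isOpen_pi_iff.1 hW p hp
  obtain ⟨f, hf⟩ := exists_shrink (I.sup id)
  refine ⟨((trH (fun n => if n = 0 then !a else !b)).trans f).trans (trH p), fun x hx => ?_⟩
  apply hI
  intro i hi
  have h1 := hf (trH (fun n => if n = 0 then !a else !b) x) (by
    intro h
    apply hx
    have e0 : xor (x 0) (!a) = true := h.1
    have e1 : xor (x 1) (!b) = true := h.2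
    constructor
    · revert e0; cases x 0 <;> cases a <;> simp
    · revert e1; cases x 1 <;> cases b <;> simp) i (Finset.le_sup (f := id) hi)
  show xor (f (trH (fun n => if n = 0 then !a else !b) x) i) (p i) ∈ u i
  rw [h1]
  simpa using (hu i hi).2

end Pool.Agent.H488Z.Ros
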