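import Mathlib

set_option autoImplicit false

namespace Pool.Agent.H488Z.Ros

open MeasureTheory

/-- The metric `d` on the topological group `G` induces the topology of `G` and is left-invariant. -/
def IsCompatLeftInv {G : Type} [Group G] [t : TopologicalSpace G] (d : MetricSpace G) : Prop :=
  d.toPseudoMetricSpace.toUniformSpace.toTopologicalSpace = t ∧
    ∀ h g f : G, d.dist (h * g) (h * f) = d.dist g f

/-- `d` is a maximal compatible left-invariant metric: every compatible left-invariant metric `e`
satisfies `e ≤ K d + K` for some constant `K`. -/
def IsMaximalMetric {G : Type} [Group G] [TopologicalSpace G] (d : MetricSpace G) : Prop :=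
  IsCompatLeftInv d ∧
    ∀ e : MetricSpace G, IsCompatLeftInv e → ∃ K : ℝ, ∀ g f : G, e.dist g f ≤ K * d.dist g f + K

/-- `G` is amenable: every continuous action on a nonempty compact Hausdorff space has an invariant
Borel probability measure. -/
def Amenable (G : Type) [Group G] [TopologicalSpace G] : Prop :=
  ∀ (X : Type) [TopologicalSpace X] [CompactSpace X] [T2Space X] [Nonempty X] [MulAction G X]
    [ContinuousSMul G X] [MeasurableSpace X] [BorelSpace X],
    ∃ μ : Measure X, IsProbabilityMeasure μ ∧ ∀ g : G, μ.map (fun x => g • x) = μ

end Pool.Agent.H488Z.Ros
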