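import Pool.Agent.H488Z.Ros.Homeo
import Pool.Agent.H488Z.Ros.Cantor

set_option autoImplicit false
set_option linter.unusedSectionVars false

namespace Pool.Agent.H488Z.Ros

open MeasureTheory Topology Filter

section Perm
variable {G Ω : Type} [Group G] [MulAction G Ω]

/-- Real square-summable functions. -/
abbrev L2 (Ω : Type) := lp (fun _ : Ω => ℝ) 2

lemma mem_perm (g : G) (f : L2 Ω) : Memℓp (fun w : Ω => f (g⁻¹ • w)) 2 := by
  have h := f.2
  have hp : 0 < (2 : ENNReal).toReal := by norm_num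
  have h2 := (memℓp_gen_iff hp).1 h
  exact (memℓp_gen_iff hp).2 (((MulAction.toPerm g⁻¹).summable_iff
    (f := fun i => ‖(f : Ω → ℝ) i‖ ^ (2 : ENNReal).toReal)).2 h2)

/-- The permutation representation. -/
noncomputable def permL (g : G) : L2 Ω ≃ₗᵢ[ℝ] L2 Ω where
  toFun f := ⟨fun w => f (g⁻¹ • w), mem_perm g f⟩
  invFun f := ⟨fun w => f (g⁻¹⁻¹ • w), mem_perm g⁻¹ f⟩
  map_add' _ _ := rfl
  map_smul' _ _ := rfl
  left_inv f := by
    apply lp.ext
    funext w
    show f (g⁻¹ • g⁻¹⁻¹ • w) = f w
    simp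
  right_inv f := by
    apply lp.ext
    funext w
    show f (g⁻¹⁻¹ • g⁻¹ • w) = f w
    simp
  norm_map' f := by
    have hp : 0 < (2 : ENNReal).toReal := by norm_num
    rw [lp.norm_eq_tsum_rpow hp, lp.norm_eq_tsum_rpow hp]
    congr 1
    exact (MulAction.toPerm g⁻¹).tsum_eq (fun i => ‖(f : Ω → ℝ) i‖ ^ (2 : ENNReal).toReal)

lemma permL_apply (g : G) (f : L2 Ω) (w : Ω) : permL g f w = f (g⁻¹ • w) := rfl

lemma permL_mul (g h : G) (f : L2 Ω) : permL (g * h) f = permL g (permL h f) := by
  apply lp.ext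
  funext w
  simp only [permL_apply, mul_inv_rev, mul_smul]

lemma permL_one (f : L2 Ω) : permL (1 : G) f = f := by
  apply lp.ext
  funext w
  simp only [permL_apply, inv_one, one_smul]

lemma permL_single [DecidableEq Ω] (g : G) (i : Ω) (c : ℝ) :
    permL g (lp.single 2 i c : L2 Ω) = lp.single 2 (g • i) c := by
  apply lp.ext
  funext w
  rw [permL_apply, lp.single_apply, lp.single_apply, Pi.single_apply, Pi.single_apply]
  simp only [inv_smul_eq_iff]

lemma continuous_permL [TopologicalSpace G] (h : ∀ w : Ω, IsLocallyConstant fun g : G => g • w) :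
    Continuous fun p : G × L2 Ω => permL p.1 p.2 := by
  classical
  let s : Set (L2 Ω) := {a | ∃ (t : Finset Ω) (f : Ω → ℝ), a = ∑ i ∈ t, lp.single 2 i (f i)}
  have hs : Dense s := by
    intro f
    exact mem_closure_of_tendsto (lp.hasSum_single (by norm_num) f)
      (Eventually.of_forall fun t => ⟨t, f, rfl⟩)
  have h1 : Continuous fun p : L2 Ω × G => permL p.2 p.1 := by
    apply continuous_prod_of_dense_continuous_lipschitzWith _ 1 hs
    · rintro a ⟨t, f, rfl⟩
      simp only [map_sum, permL_single]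
      apply continuous_finsetSum
      intro i _
      exact ((h i).comp (fun j => (lp.single 2 j (f i) : L2 Ω))).continuous
    · intro g
      exact (permL (Ω := Ω) g).isometry.lipschitz
  exact h1.comp continuous_swap

end Perm

section Len
variable {G : Type} [Group G]

/-- The left-invariant metric attached to a length function. -/
@[reducible] def lenMetric (L : G → ℝ) (L0 : ∀ g, L g = 0 ↔ g = 1) (Linv : ∀ g, L g⁻¹ = L g)
    (Lmul : ∀ g h, L (g * h) ≤ L g + L h) : MetricSpace G where
  dist g h := L (g⁻¹ * h)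
  dist_self g := by simp [L0]
  dist_comm g h := by rw [← Linv]; simp
  dist_triangle g h k := by
    have := Lmul (g⁻¹ * h) (h⁻¹ * k)
    simpa [mul_assoc] using this
  eq_of_dist_eq_zero {g h} e := inv_mul_eq_one.1 ((L0 _).1 e)

lemma lenMetric_compat [TopologicalSpace G] [IsTopologicalGroup G] (L : G → ℝ)
    (L0 : ∀ g, L g = 0 ↔ g = 1) (Linv : ∀ g, L g⁻¹ = L g) (Lmul : ∀ g h, L (g * h) ≤ L g + L h)
    (h : comap L (𝓝 0) = 𝓝 1) : IsCompatLeftInv (lenMetric L L0 Linv Lmul) := by
  constructor
  · apply TopologicalSpace.ext_nhds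
    intro g
    rw [← @nhds_comap_dist G (lenMetric L L0 Linv Lmul).toPseudoMetricSpace g,
      ← nhds_translation_inv_mul g, ← h, comap_comap]
    congr 1
    funext k
    show L (k⁻¹ * g) = L (g⁻¹ * k)
    rw [← Linv]; simp
  · intro k g f
    show L ((k * g)⁻¹ * (k * f)) = L (g⁻¹ * f)
    simp [mul_assoc]

end Len

section Clop
variable {X : Type} [MetricSpace X] [CompactSpace X]

/-- Clopen subsets. -/
def Clop (X : Type) [TopologicalSpace X] : Type := {s : Set X // IsClopen s}

/-- A clopen set as an element of `Clop X`. -/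
def Clop.mk (s : Set X) (hs : IsClopen s) : Clop X := ⟨s, hs⟩

instance : MulAction (End X)ˣ (Clop X) where
  smul g s := ⟨{x | g⁻¹ • x ∈ s.1}, s.2.preimage (continuous_const_smul g⁻¹)⟩
  one_smul s := by
    apply Subtype.ext
    show {x | (1 : (End X)ˣ)⁻¹ • x ∈ s.1} = s.1
    simp
  mul_smul g h s := by
    apply Subtype.ext
    show {x | (g * h)⁻¹ • x ∈ s.1} = {x | h⁻¹ • g⁻¹ • x ∈ s.1}
    simp [mul_smul]

lemma mem_smul_clop (g : (End X)ˣ) (s : Clop X) (x : X) : x ∈ (g • s).1 ↔ g⁻¹ • x ∈ s.1 := Iff.rfl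

lemma locConst_clop (s : Clop X) : IsLocallyConstant fun g : (End X)ˣ => g • s := by
  obtain ⟨δ, hδ, hs⟩ := s.2.isClosed.isCompact.exists_thickening_subset_open s.2.isOpen le_rfl
  rw [IsLocallyConstant.iff_eventually_eq]
  intro g₀
  have h1 : Continuous fun g : (End X)ˣ => disp (g₀⁻¹ * g) := continuous_disp.comp (by fun_prop)
  have h2 : ∀ᶠ g in 𝓝 g₀, disp (g₀⁻¹ * g) < δ := by
    apply h1.continuousAt.eventually (gt_mem_nhds _)
    simpa [disp_eq_zero.2] using hδ
  filter_upwards [h2] with g hg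
  have h3 : (g₀⁻¹ * g) • s = s := by
    apply Subtype.ext
    ext x
    rw [mem_smul_clop]
    have h4 := dist_le_disp (g₀⁻¹ * g)⁻¹ x
    rw [disp_inv] at h4
    constructor
    · intro hx
      exact hs (Metric.mem_thickening_iff.2 ⟨_, hx, by rw [dist_comm]; linarith⟩)
    · intro hx
      exact hs (Metric.mem_thickening_iff.2 ⟨_, hx, by linarith⟩)
  conv_rhs => rw [← h3]
  rw [← mul_smul, mul_inv_cancel_left]

lemma clop_faithful [TotallyDisconnectedSpace X] (g : (End X)ˣ) (h : ∀ s : Clop X, g • s = s) :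
    g = 1 := by
  apply unit_ext
  intro x
  rw [one_smul]
  by_contra hx
  obtain ⟨W, hW, hxW, hWs⟩ := compact_exists_isClopen_in_isOpen
    (isOpen_compl_singleton (x := g • x)) (x := x) (fun e => hx e.symm)
  have h1 : g • x ∈ (g • Clop.mk W hW).1 := by
    rw [mem_smul_clop, inv_smul_smul]
    exact hxW
  rw [h] at h1
  exact hWs h1 rfl

end Clop

section Final
variable {X : Type} [MetricSpace X] [CompactSpace X]

/-- The group: homeomorphisms times the integers. -/
abbrev GG (X : Type) [MetricSpace X] [CompactSpace X] : Type := (End X)ˣ × Multiplicative ℤ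

/-- Its length function. -/
noncomputable def LL (g : GG X) : ℝ := disp g.1 + |((Multiplicative.toAdd g.2 : ℤ) : ℝ)|

lemma LL0 (g : GG X) : LL g = 0 ↔ g = 1 := by
  constructor
  · intro h
    unfold LL at h
    have h1 := disp_nonneg g.1
    have h2 := abs_nonneg ((Multiplicative.toAdd g.2 : ℤ) : ℝ)
    have h3 : disp g.1 = 0 := by linarith
    have h4 : |((Multiplicative.toAdd g.2 : ℤ) : ℝ)| = 0 := by linarith
    rw [abs_eq_zero, Int.cast_eq_zero] at h4
    exact Prod.ext (disp_eq_zero.1 h3) h4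
  · rintro rfl
    simp [LL, disp_eq_zero.2]

lemma LLinv (g : GG X) : LL g⁻¹ = LL g := by
  simp [LL, disp_inv]

lemma LLmul (g h : GG X) : LL (g * h) ≤ LL g + LL h := by
  have h1 := disp_mul g.1 h.1
  have h2 := abs_add_le ((Multiplicative.toAdd g.2 : ℤ) : ℝ) ((Multiplicative.toAdd h.2 : ℤ) : ℝ)
  simp only [LL, Prod.fst_mul, Prod.snd_mul, toAdd_mul, Int.cast_add]
  linarith

lemma continuous_LL : Continuous (LL : GG X → ℝ) := by
  apply (continuous_disp.comp continuous_fst).add
  exact (continuous_of_discreteTopology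
    (f := fun n : Multiplicative ℤ => |((Multiplicative.toAdd n : ℤ) : ℝ)|)).comp continuous_snd

lemma comap_LL : comap (LL : GG X → ℝ) (𝓝 0) = 𝓝 1 := by
  apply le_antisymm
  · have h0 : Tendsto (LL : GG X → ℝ) (comap LL (𝓝 0)) (𝓝 0) := tendsto_comap
    have h1 : Tendsto (fun g : GG X => g.1) (comap LL (𝓝 0)) (𝓝 1) := by
      apply tendsto_of_disp
      apply squeeze_zero (fun g => disp_nonneg _) _ h0
      intro g
      exact le_add_of_nonneg_right (abs_nonneg _)
    have h2 : Tendsto (fun g : GG X => g.2) (comap LL (𝓝 0)) (𝓝 1) := by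
      apply tendsto_const_nhds.congr'
      filter_upwards [h0.eventually (gt_mem_nhds one_pos)] with g hg
      have h3 : |((Multiplicative.toAdd g.2 : ℤ) : ℝ)| < 1 := by
        have := disp_nonneg g.1
        unfold LL at hg
        linarith
      have h4 : |Multiplicative.toAdd g.2| < 1 := by exact_mod_cast h3
      exact (Int.abs_lt_one_iff.1 h4).symm
    exact h1.prodMk_nhds h2
  · have := (continuous_LL (X := X)).tendsto 1
    rw [(LL0 1).2 rfl] at this
    exact this.le_comap

/-- The left-invariant metric on the group. -/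
@[reducible] noncomputable def dd (X : Type) [MetricSpace X] [CompactSpace X] : MetricSpace (GG X) :=
  lenMetric LL LL0 LLinv LLmul

lemma dd_max [TotallyDisconnectedSpace X] {A : Fin 3 → Set X} (hA : Compress A) :
    IsMaximalMetric (dd X) := by
  refine ⟨lenMetric_compat _ _ _ _ comap_LL, fun e he => ?_⟩
  let E : GG X → ℝ := fun g => e.dist g 1
  have Einv : ∀ g, E g⁻¹ = E g := by
    intro g
    show e.dist g⁻¹ 1 = e.dist g 1
    rw [← he.2 g, mul_inv_cancel, mul_one, e.dist_comm]
  have Emul : ∀ g h, E (g * h) ≤ E g + E h := by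
    intro g h
    have h1 := e.dist_triangle (g * h) g 1
    have h2 := he.2 g h 1
    rw [mul_one] at h2
    show e.dist (g * h) 1 ≤ e.dist g 1 + e.dist h 1
    linarith
  have E0 : ∀ g, 0 ≤ E g := fun g => @dist_nonneg _ e.toPseudoMetricSpace _ _
  have E1 : E 1 = 0 := e.dist_self 1
  have hn : {g | E g < 1} ∈ 𝓝 (1 : GG X) := by
    have := @Metric.ball_mem_nhds _ e.toPseudoMetricSpace (1 : GG X) 1 one_pos
    rw [he.1] at this
    exact this
  rw [← comap_LL, mem_comap] at hn
  obtain ⟨t, ht, hts⟩ := hn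
  obtain ⟨ε, hε, hεt⟩ := Metric.mem_nhds_iff.1 ht
  obtain ⟨M, hM⟩ := hA.bounded (fun g => E (g, 1)) (fun g => Einv (g, 1))
    (fun g h => Emul (g, 1) (h, 1)) (half_pos hε) (by
      intro g hg
      apply le_of_lt
      apply hts
      apply hεt
      have : LL ((g, 1) : GG X) = disp g := by simp [LL]
      rw [mem_ball_zero_iff, this, Real.norm_eq_abs, abs_of_nonneg (disp_nonneg g)]
      linarith)
  set c := E (1, Multiplicative.ofAdd 1) with hc
  have hnat : ∀ n : ℕ, E (1, Multiplicative.ofAdd (n : ℤ)) ≤ c * n := by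
    intro n
    induction n with
    | zero =>
      rw [Nat.cast_zero, Nat.cast_zero, mul_zero]
      exact E1.le
    | succ n ih =>
      have h1 := Emul (1, Multiplicative.ofAdd (n : ℤ)) (1, Multiplicative.ofAdd 1)
      have h2 : ((1, Multiplicative.ofAdd (n : ℤ)) * (1, Multiplicative.ofAdd 1) : GG X)
          = (1, Multiplicative.ofAdd ((n + 1 : ℕ) : ℤ)) := by
        simp [ofAdd_add]
      rw [h2] at h1
      push_cast at h1 ⊢
      linarith
  have hint : ∀ n : ℤ, E (1, Multiplicative.ofAdd n) ≤ c * |(n : ℝ)| := by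
    intro n
    obtain ⟨k, rfl | rfl⟩ := Int.eq_nat_or_neg n
    · simpa using hnat k
    · have h1 := Einv (1, Multiplicative.ofAdd (k : ℤ))
      have h2 : ((1, Multiplicative.ofAdd (k : ℤ)) : GG X)⁻¹
          = (1, Multiplicative.ofAdd (-(k : ℤ))) := by simp
      rw [h2] at h1
      rw [h1]
      simpa using hnat k
  refine ⟨max c M, fun g f => ?_⟩
  have h1 : e.dist g f = E (g⁻¹ * f) := by
    show _ = e.dist (g⁻¹ * f) 1
    rw [← he.2 g⁻¹, inv_mul_cancel, e.dist_comm]
  show _ ≤ _ * LL (g⁻¹ * f) + _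
  rw [h1]
  generalize g⁻¹ * f = k
  have h2 := Emul (k.1, 1) (1, Multiplicative.ofAdd (Multiplicative.toAdd k.2))
  have h3 : ((k.1, 1) * (1, Multiplicative.ofAdd (Multiplicative.toAdd k.2)) : GG X) = k := by
    simp
  rw [h3] at h2
  have h4 := hint (Multiplicative.toAdd k.2)
  have h5 := hM k.1
  have h6 : |((Multiplicative.toAdd k.2 : ℤ) : ℝ)| ≤ LL k := le_add_of_nonneg_left (disp_nonneg _)
  have h7 : c * |((Multiplicative.toAdd k.2 : ℤ) : ℝ)| ≤ max c M * LL k :=
    mul_le_mul (le_max_left _ _) h6 (abs_nonneg _) ((E0 _).trans (le_max_left _ _))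
  linarith [le_max_right c M]

lemma not_amenable [Nonempty X] {A : Fin 3 → Set X} (hA : Compress A) : ¬ Amenable (GG X) := by
  intro h
  let _ : MulAction (GG X) X := MulAction.compHom X (MonoidHom.fst (End X)ˣ (Multiplicative ℤ))
  have : ContinuousSMul (GG X) X :=
    ⟨(continuous_fst.comp continuous_fst : Continuous fun p : GG X × X => p.1.1).smul
      continuous_snd⟩
  borelize X
  obtain ⟨μ, hμ, hinv⟩ := h X
  exact hA.no_measure μ (fun g => hinv (g, 1))

open Classical in
/-- The invariant unit vector. -/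
noncomputable def del (X : Type) [MetricSpace X] : L2 (Clop X) :=
  lp.single 2 (Clop.mk ∅ isClopen_empty) 1

lemma permL_del (g : (End X)ˣ) : permL g (del X) = del X := by
  classical
  unfold del
  rw [permL_single]
  congr 1

lemma norm_del : ‖del X‖ = 1 := by
  classical
  unfold del
  rw [lp.norm_single (by norm_num)]
  simp

/-- The affine isometric action. -/
noncomputable def act (X : Type) [MetricSpace X] [CompactSpace X] :
    GG X →* (L2 (Clop X) ≃ᵃⁱ[ℝ] L2 (Clop X)) where
  toFun g := (permL g.1).toAffineIsometryEquiv.trans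
    (AffineIsometryEquiv.constVAdd ℝ (L2 (Clop X)) (((Multiplicative.toAdd g.2 : ℤ) : ℝ) • del X))
  map_one' := by
    ext1 f
    simp [permL_one]
  map_mul' g h := by
    ext1 f
    simp [permL_mul, permL_del, add_smul, add_assoc]

lemma act_apply (g : GG X) (f : L2 (Clop X)) :
    act X g f = ((Multiplicative.toAdd g.2 : ℤ) : ℝ) • del X + permL g.1 f := rfl

lemma continuous_act : Continuous fun p : GG X × L2 (Clop X) => act X p.1 p.2 := by
  simp only [act_apply]
  apply Continuous.add
  · exact (continuous_of_discreteTopology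
      (f := fun n : Multiplicative ℤ => ((Multiplicative.toAdd n : ℤ) : ℝ) • del X)).comp
      (continuous_snd.comp continuous_fst)
  · exact (continuous_permL locConst_clop).comp
      ((continuous_fst.comp continuous_fst).prodMk continuous_snd)

lemma norm_act_zero (g : GG X) : ‖act X g 0‖ = |((Multiplicative.toAdd g.2 : ℤ) : ℝ)| := by
  rw [act_apply, map_zero, add_zero, norm_smul, norm_del, mul_one, Real.norm_eq_abs]

lemma act_injective [TotallyDisconnectedSpace X] : Function.Injective (act X) := by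
  classical
  rw [injective_iff_map_eq_one]
  intro g hg
  have h1 := norm_act_zero g
  rw [hg] at h1
  have h2 : ((Multiplicative.toAdd g.2 : ℤ) : ℝ) = 0 := by simpa using h1.symm
  have h3 : g.1 = 1 := by
    apply clop_faithful
    intro s
    have h4 := act_apply g (lp.single 2 s 1)
    rw [hg, h2, zero_smul, zero_add, permL_single] at h4
    by_contra hne
    have h5 := congrArg (fun f : L2 (Clop X) => f s) h4
    simp [lp.single_apply, hne] at h5
  exact Prod.ext h3 (Int.cast_eq_zero.1 h2)

end Final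

theorem main : ∃ (G : Type) (_ : Group G) (_ : TopologicalSpace G) (_ : IsTopologicalGroup G)
    (_ : PolishSpace G) (d : MetricSpace G), IsMaximalMetric d ∧ (∀ R : ℝ, ∃ g, R < d.dist g 1) ∧
    (∃ (H : Type) (_ : NormedAddCommGroup H) (_ : InnerProductSpace ℝ H) (_ : CompleteSpace H)
      (α : G →* (H ≃ᵃⁱ[ℝ] H)), Continuous (fun p : G × H => α p.1 p.2) ∧ Function.Injective α ∧
      ∃ C : ℝ, 0 < C ∧ ∀ g, d.dist g 1 - C ≤ ‖α g 0‖) ∧ ¬ Amenable G := by
  let _ : MetricSpace (ℕ → Bool) := TopologicalSpace.metrizableSpaceMetric _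
  let A : Fin 3 → Set (ℕ → Bool) := ![cyl true true, cyl true false, cyl false true]
  have hA : Compress A := by
    refine ⟨fun i => ?_, fun i j hij x hx hx' => ?_, fun i => ?_, fun i W hW hne => ?_⟩
    · fin_cases i <;> exact isClopen_cyl _ _
    · fin_cases i <;> fin_cases j <;> simp_all [A, cyl]
    · fin_cases i
      · exact ⟨fun _ => true, rfl, rfl⟩
      · exact ⟨fun n => n = 0, rfl, rfl⟩
      · exact ⟨fun n => n = 1, rfl, rfl⟩
    · have key : ∀ a b, ∃ f : (End (ℕ → Bool))ˣ, ∀ x, x ∉ cyl a b → f • x ∈ W := by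
        intro a b
        obtain ⟨f, hf⟩ := cyl_compress a b W hW hne
        exact ⟨ofHomeo f, hf⟩
      fin_cases i <;> exact key _ _
  have : PolishSpace (Multiplicative ℤ) := inferInstanceAs (PolishSpace ℤ)
  refine ⟨GG (ℕ → Bool), inferInstance, inferInstance, inferInstance, inferInstance,
    dd (ℕ → Bool), dd_max hA, fun R => ?_, ⟨L2 (Clop (ℕ → Bool)), inferInstance, inferInstance,
      inferInstance, act (ℕ → Bool), continuous_act, act_injective, ?_⟩, not_amenable hA⟩
  · obtain ⟨n, hn⟩ := exists_nat_gt R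
    refine ⟨(1, Multiplicative.ofAdd (n : ℤ)), ?_⟩
    show R < LL (_ * 1)
    rw [mul_one, LLinv]
    simpa [LL, disp_eq_zero.2] using hn
  · obtain ⟨D, hD⟩ := disp_bdd (X := ℕ → Bool)
    refine ⟨D + 1, by linarith [hD 1, disp_nonneg (1 : (End (ℕ → Bool))ˣ)], fun g => ?_⟩
    show LL (_ * 1) - _ ≤ _
    rw [mul_one, LLinv, norm_act_zero]
    unfold LL
    linarith [hD g.1]

end Pool.Agent.H488Z.Ros
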